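import Pool.Agent.helper91.RB.Spec2

/-! Row rb:CHV (MP_24e2e7_nt). -/

set_option autoImplicit false

namespace Pool.Agent.RB

open NumberField IsDedekindDomain Module
open scoped nonZeroDivisors Real Classical Pointwise

section

variable {F L : Type} [Field F] [NumberField F] [Field L] [NumberField L] [Algebra F L]

theorem CHV_under {P : HOS L} {p : HOS F} (h : P.under (𝓞 F) = p) :
    P.asIdeal.under (𝓞 F) = p.asIdeal := by
  rw [← h]
  rfl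

theorem CHV_card {P : HOS L} {p : HOS F} (h : P.under (𝓞 F) = p) :
    Nat.card (𝓞 F ⧸ P.asIdeal.under (𝓞 F)) = nm p := by
  rw [CHV_under h]
  rfl

theorem CHV_exists (p : HOS F) : ∃ P : HOS L, P.under (𝓞 F) = p := by
  obtain ⟨P, hPm, hP⟩ := Ideal.exists_maximal_ideal_liesOver_of_isIntegral (S := 𝓞 L) p.asIdeal
  have hover : p.asIdeal = P.under (𝓞 F) := hP.over
  have hne : P ≠ ⊥ := by
    rintro rfl
    apply p.ne_bot
    rw [hover]
    exact Ideal.under_bot (𝓞 F) (𝓞 L)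
  refine ⟨⟨P, hPm.isPrime, hne⟩, ?_⟩
  apply HeightOneSpectrum.ext
  exact hover.symm

end

section

variable {F L : Type} [Field F] [NumberField F] [Field L] [NumberField L] [Algebra F L]
  [IsAbelianGalois F L]

theorem CHV_comm (a b : L ≃ₐ[F] L) : a * b = b * a :=
  (IsMulCommutative.is_comm (M := L ≃ₐ[F] L)).comm a b

theorem CHV_iff {P : HOS L} {p : HOS F} (h : P.under (𝓞 F) = p) (σ : L ≃ₐ[F] L) :
    (∀ x : 𝓞 L, σ • x - x ^ nm p ∈ P.asIdeal) ↔ IsArithFrobAt (𝓞 F) σ P.asIdeal := by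
  rw [← CHV_card h]
  rfl

theorem CHV_frob {P : HOS L} {p : HOS F} (h : P.under (𝓞 F) = p) :
    ∃ σ : L ≃ₐ[F] L, ∀ x : 𝓞 L, σ • x - x ^ nm p ∈ P.asIdeal := by
  have : Finite (𝓞 L ⧸ P.asIdeal) := inferInstance
  obtain ⟨σ, hσ⟩ := IsArithFrobAt.exists_of_isInvariant (𝓞 F) (L ≃ₐ[F] L) P.asIdeal
  exact ⟨σ, (CHV_iff h σ).2 hσ⟩

theorem CHV_conj {P P' : HOS L} {p : HOS F} (h : P.under (𝓞 F) = p) (h' : P'.under (𝓞 F) = p) :
    ∃ τ : L ≃ₐ[F] L, P'.asIdeal = τ • P.asIdeal :=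
  Algebra.IsInvariant.exists_smul_of_under_eq (𝓞 F) (𝓞 L) (L ≃ₐ[F] L) P.asIdeal P'.asIdeal
    ((CHV_under h).trans (CHV_under h').symm)

theorem CHV_eq (χ : (L ≃ₐ[F] L) →* ℂˣ) {p : HOS F} (hχ : unr χ p) {σ σ' : L ≃ₐ[F] L}
    (hσ : isFr p σ) (hσ' : isFr p σ') : χ σ = χ σ' := by
  obtain ⟨P, hP, h1⟩ := hσ
  obtain ⟨P', hP', h2⟩ := hσ'
  rw [CHV_iff hP] at h1
  rw [CHV_iff hP'] at h2
  obtain ⟨τ, hτ⟩ := CHV_conj hP hP'
  have h3 := h1.conj τ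
  rw [CHV_comm τ σ, mul_inv_cancel_right, ← hτ] at h3
  have h4 := h3.mul_inv_mem_inertia h2
  have h5 := hχ P' hP' (σ * σ'⁻¹) h4
  rw [map_mul, map_inv, mul_inv_eq_one] at h5
  exact h5

theorem CHV_unr (χ : (L ≃ₐ[F] L) →* ℂˣ) {p : HOS F} {P : HOS L} (hP : P.under (𝓞 F) = p)
    (h : ∀ σ : L ≃ₐ[F] L, (∀ x : 𝓞 L, σ • x - x ∈ P.asIdeal) → χ σ = 1) : unr χ p := by
  intro P' hP' σ hσ
  obtain ⟨τ, hτ⟩ := CHV_conj hP hP'
  apply h
  intro x
  have h1 := hσ (τ • x)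
  rw [hτ, Ideal.mem_pointwise_smul_iff_inv_smul_mem, smul_sub, smul_smul, smul_smul, smul_smul,
    inv_mul_cancel, one_smul] at h1
  have h2 : τ⁻¹ * σ * τ = σ := by rw [CHV_comm τ⁻¹ σ, inv_mul_cancel_right]
  rwa [h2] at h1

end

theorem CHV : CHV_stmt := by
  intro F L _ _ _ _ _ _ p
  refine ⟨CHV_exists p, fun P hP => CHV_frob hP, ?_, ?_, ?_, ?_⟩
  · intro χ σ hχ hσ
    unfold chv
    rw [if_pos hχ]
    have h1 : isFr p (Classical.epsilon (isFr p) : L ≃ₐ[F] L) := Classical.epsilon_spec ⟨σ, hσ⟩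
    rw [CHV_eq χ hχ h1 hσ]
  · intro χ hχ
    unfold chv
    rw [if_neg hχ]
  · intro χ
    unfold chv
    split_ifs with hχ
    · apply le_of_eq
      have h1 : (χ (Classical.epsilon (isFr p))) ^ Nat.card (L ≃ₐ[F] L) = 1 := by
        rw [← map_pow, pow_card_eq_one', map_one]
      have h2 : ((χ (Classical.epsilon (isFr p)) : ℂˣ) : ℂ) ^ Nat.card (L ≃ₐ[F] L) = 1 := by
        rw [← Units.val_pow_eq_pow_val, h1, Units.val_one]
      exact Complex.norm_eq_one_of_pow_eq_one h2 Nat.card_pos.ne'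
    · rw [norm_zero]
      exact zero_le_one
  · rintro χ ⟨P, hP, h⟩
    exact CHV_unr χ hP h

end Pool.Agent.RB
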